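import Mathlib
import Pool.Agent.U309.ZF.Stm4

/-!
# Project ZF3 (helper309), package ETA14 (helper2)

The newform `η(τ) η(2τ) η(7τ) η(14τ)` of `X_0(14)` is positive on the imaginary axis.
-/

set_option autoImplicit false

open UpperHalfPlane Filter Topology
open Pool.Agent.W97.TW Pool.Agent.W97.MT

namespace Pool.Agent.U2.ZFETA

/-- a positive real number -/
def Pos (z : ℂ) : Prop := ∃ r : ℝ, 0 < r ∧ z = (r : ℂ)

lemma Pos.mul {z w : ℂ} (hz : Pos z) (hw : Pos w) : Pos (z * w) := by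
  obtain ⟨r, hr, rfl⟩ := hz
  obtain ⟨s, hs, rfl⟩ := hw
  exact ⟨r * s, mul_pos hr hs, by push_cast; ring⟩

lemma Pos.pow {z : ℂ} (hz : Pos z) (d : ℕ) : Pos (z ^ d) := by
  obtain ⟨r, hr, rfl⟩ := hz
  exact ⟨r ^ d, pow_pos hr d, by push_cast; ring⟩

lemma Pos.re {z : ℂ} (hz : Pos z) : 0 < z.re := by
  obtain ⟨r, hr, rfl⟩ := hz
  simpa using hr

lemma pos_Q {z : ℂ} (hz : Pos z) (h1 : ‖z‖ < 1) : Pos (Q z) := by
  obtain ⟨x, hx, rfl⟩ := hz
  have hx1 : x < 1 := by
    rw [Complex.norm_real, Real.norm_of_nonneg hx.le] at h1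
    exact h1
  have hsum : Summable fun i : ℕ => ‖-((x : ℂ) ^ (i + 1))‖ := by
    have h := (summable_geometric_of_lt_one hx.le hx1).mul_left x
    refine h.congr fun i => ?_
    rw [norm_neg, norm_pow, Complex.norm_real, Real.norm_of_nonneg hx.le]
    ring
  have hm : Multipliable fun i : ℕ => (1 - (x : ℂ) ^ (i + 1)) := by
    have h := multipliable_one_add_of_summable hsum
    refine h.congr fun i => ?_
    ring
  have hlim : Tendsto (fun n : ℕ => ∏ i ∈ Finset.range n, (1 - (x : ℂ) ^ (i + 1))) atTop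
      (𝓝 (Q (x : ℂ))) := hm.hasProd.tendsto_prod_nat
  have hfin : ∀ n : ℕ, ∏ i ∈ Finset.range n, (1 - (x : ℂ) ^ (i + 1)) =
      ((∏ i ∈ Finset.range n, (1 - x ^ (i + 1)) : ℝ) : ℂ) := by
    intro n
    push_cast
    rfl
  simp_rw [hfin] at hlim
  have hre : 0 ≤ (Q (x : ℂ)).re := by
    refine ge_of_tendsto' ((Complex.continuous_re.tendsto _).comp hlim) fun n => ?_
    simp only [Function.comp_apply, Complex.ofReal_re]
    exact Finset.prod_nonneg fun i _ => sub_nonneg.2 (pow_le_one₀ hx.le hx1.le)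
  have him : (Q (x : ℂ)).im = 0 := by
    refine tendsto_nhds_unique ((Complex.continuous_im.tendsto _).comp hlim) ?_
    have : (Complex.im ∘ fun n : ℕ => ((∏ i ∈ Finset.range n, (1 - x ^ (i + 1)) : ℝ) : ℂ)) =
        fun _ => 0 := by
      funext n
      simp only [Function.comp_apply, Complex.ofReal_im]
    rw [this]
    exact tendsto_const_nhds
  have hne := Q_ne h1
  refine ⟨(Q (x : ℂ)).re, lt_of_le_of_ne hre fun h => hne ?_, ?_⟩
  · exact Complex.ext h.symm him
  · exact Complex.ext (by simp) (by simpa using him)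

theorem t_ETA14 : Pool.Agent.U309.ZF.S_ETA14 := by
  intro τ hτ
  have hform : form14 τ = ff (τ : ℂ) := rfl
  rw [hform, ff_q]
  have hq1 : ‖qq (τ : ℂ)‖ < 1 := norm_qq_lt τ.im_pos
  have hq : Pos (qq (τ : ℂ)) := by
    refine ⟨Real.exp (-2 * Real.pi * (τ : ℂ).im), Real.exp_pos _, ?_⟩
    unfold qq
    rw [Complex.ofReal_exp]
    congr 1
    apply Complex.ext
    · simp
    · simp
      exact hτ
  have hp : ∀ d : ℕ, d ≠ 0 → Pos (Q (qq (τ : ℂ) ^ d)) := by
    intro d hd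
    apply pos_Q (hq.pow d)
    rw [norm_pow]
    exact pow_lt_one₀ (norm_nonneg _) hq1 hd
  have h1 := hp 1 one_ne_zero
  rw [pow_one] at h1
  refine Pos.re (hq.mul ?_)
  unfold phi
  exact ((h1.mul (hp 2 two_ne_zero)).mul (hp 7 (by norm_num))).mul (hp 14 (by norm_num))

end Pool.Agent.U2.ZFETA
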